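import Pool.Agent.Helper34.ST.Basic

/-!
# Cheap closed walk (real costs) from the integral version
-/

set_option autoImplicit false

namespace Pool.Agent.Helper34.ST

open Finset

/-- a gap above one for the mean costs of short closed walks -/
theorem MMC_gap (ι : Type) [Fintype ι] [Nonempty ι] (r : ι → ι → Prop) (z : ι → ℝ)
    (hcon : ∀ (L : ℕ) (p : ℕ → ι), 1 ≤ L → L ≤ Fintype.card ι → p L = p 0 →
      (∀ i, i < L → r (p i) (p (i + 1))) → (L : ℝ) < ∑ i ∈ range L, z (p i)) :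
    ∃ τ : ℝ, 1 < τ ∧ ∀ (L : ℕ) (p : ℕ → ι), 1 ≤ L → L ≤ Fintype.card ι → p L = p 0 →
      (∀ i, i < L → r (p i) (p (i + 1))) → τ * (L : ℝ) ≤ ∑ i ∈ range L, z (p i) := by
  classical
  have h1 : ∀ x : Fin (Fintype.card ι + 1) × (Fin (Fintype.card ι + 1) → ι), ∃ τ : ℝ, 1 < τ ∧
      ∀ p : ℕ → ι, (∀ i : Fin (Fintype.card ι + 1), p i.val = x.2 i) → 1 ≤ x.1.val → p x.1.val = p 0 →
        (∀ i, i < x.1.val → r (p i) (p (i + 1))) → τ * (x.1.val : ℝ) ≤ ∑ i ∈ range x.1.val, z (p i) := by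
    intro x
    by_cases hv : ∃ p : ℕ → ι, (∀ i : Fin (Fintype.card ι + 1), p i.val = x.2 i) ∧ 1 ≤ x.1.val ∧
        p x.1.val = p 0 ∧ (∀ i, i < x.1.val → r (p i) (p (i + 1)))
    · obtain ⟨p, hp, hL, hc, hr⟩ := hv
      have hlt := hcon x.1.val p hL (by have := x.1.isLt; omega) hc hr
      have hLpos : (0 : ℝ) < (x.1.val : ℝ) := by exact_mod_cast hL
      refine ⟨(∑ i ∈ range x.1.val, z (p i)) / x.1.val, ?_, ?_⟩
      · rw [one_lt_div hLpos]
        exact hlt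
      · intro p' hp' _ _ _
        rw [div_mul_cancel₀ _ hLpos.ne']
        refine le_of_eq (Finset.sum_congr rfl fun i hi => ?_)
        have hi' := Finset.mem_range.1 hi
        have hiN : i < Fintype.card ι + 1 := by have := x.1.isLt; omega
        have e1 := hp ⟨i, hiN⟩
        have e2 := hp' ⟨i, hiN⟩
        show z (p i) = z (p' i)
        rw [show p i = x.2 ⟨i, hiN⟩ from e1, show p' i = x.2 ⟨i, hiN⟩ from e2]
    · refine ⟨2, by norm_num, ?_⟩
      intro p hp hL hc hr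
      exact absurd ⟨p, hp, hL, hc, hr⟩ hv
  choose τ hτ1 hτ2 using h1
  have hne : (Finset.univ : Finset (Fin (Fintype.card ι + 1) × (Fin (Fintype.card ι + 1) → ι))).Nonempty :=
    ⟨(0, fun _ => Classical.arbitrary ι), Finset.mem_univ _⟩
  refine ⟨Finset.univ.inf' hne τ, ?_, ?_⟩
  · rw [Finset.lt_inf'_iff]
    intro x _
    exact hτ1 x
  · intro L p hL hLN hc hr
    have h2 := hτ2 (⟨L, by omega⟩, fun i => p i.val) p (fun _ => rfl) hL hc hr
    have h3 : Finset.univ.inf' hne τ ≤ τ (⟨L, by omega⟩, fun i => p i.val) :=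
      Finset.inf'_le _ (Finset.mem_univ _)
    have hLpos : (0 : ℝ) ≤ (L : ℝ) := Nat.cast_nonneg L
    exact (mul_le_mul_of_nonneg_right h3 hLpos).trans h2

theorem st_MMC (h : ST_MMCI) : ST_MMC := by
  intro ι _ _ r d hd hw z hz
  classical
  have key : ∃ (L : ℕ) (p : ℕ → ι), 1 ≤ L ∧ p L = p 0 ∧ (∀ i, i < L → r (p i) (p (i + 1))) ∧
      ∑ i ∈ range L, z (p i) ≤ L := by
    by_contra hcon
    obtain ⟨τ, hτ1, hτ2⟩ := MMC_gap ι r z (fun L p hL _ hc hr => by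
      by_contra hlt
      exact hcon ⟨L, p, hL, hc, hr, not_lt.1 hlt⟩)
    obtain ⟨q, hq⟩ := exists_nat_gt ((2 * d + Fintype.card ι) / (2 * d * (τ - 1)))
    have hpos : (0 : ℝ) < 2 * d * (τ - 1) := by
      have : 0 < τ - 1 := by linarith
      positivity
    have hq' : 2 * d + Fintype.card ι < q * (2 * d * (τ - 1)) := by
      rwa [div_lt_iff₀ hpos] at hq
    have hqpos : (0 : ℝ) < q := by
      refine lt_of_le_of_lt ?_ hq
      positivity
    have hq1 : 1 ≤ q := by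
      have : 0 < q := by exact_mod_cast hqpos
      omega
    have hq1' : (1 : ℝ) ≤ q := by exact_mod_cast hq1
    have hqτ : 0 ≤ (q : ℝ) * τ := by nlinarith
    have hfl1 : ((⌊(q : ℝ) * τ⌋₊ : ℕ) : ℝ) ≤ q * τ := Nat.floor_le hqτ
    have hfl2 : (q : ℝ) * τ - 1 < ((⌊(q : ℝ) * τ⌋₊ : ℕ) : ℝ) := Nat.sub_one_lt_floor _
    have hfl3 : 1 ≤ ⌊(q : ℝ) * τ⌋₊ := by
      refine Nat.le_floor ?_
      push_cast
      nlinarith
    have hm := h ι r d hd hw (fun u => ⌈(q : ℝ) * z u⌉₊) ⌊(q : ℝ) * τ⌋₊ hfl3 (by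
      intro L p hL hLN hc hr
      have h1 := hτ2 L p hL hLN hc hr
      have h2 : ((⌊(q : ℝ) * τ⌋₊ * L : ℕ) : ℝ) ≤ ((∑ i ∈ range L, ⌈(q : ℝ) * z (p i)⌉₊ : ℕ) : ℝ) := by
        push_cast
        calc ((⌊(q : ℝ) * τ⌋₊ : ℕ) : ℝ) * L ≤ q * τ * L :=
              mul_le_mul_of_nonneg_right hfl1 (Nat.cast_nonneg L)
          _ = q * (τ * L) := by ring
          _ ≤ q * ∑ i ∈ range L, z (p i) := mul_le_mul_of_nonneg_left h1 (Nat.cast_nonneg q)
          _ = ∑ i ∈ range L, q * z (p i) := Finset.mul_sum _ _ _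
          _ ≤ ∑ i ∈ range L, ((⌈(q : ℝ) * z (p i)⌉₊ : ℕ) : ℝ) :=
              Finset.sum_le_sum fun i _ => Nat.le_ceil _
      exact_mod_cast h2)
    have hsum : ∑ u, ((⌈(q : ℝ) * z u⌉₊ : ℕ) : ℝ) ≤ 2 * d * q + Fintype.card ι := by
      calc ∑ u, ((⌈(q : ℝ) * z u⌉₊ : ℕ) : ℝ) ≤ ∑ u, ((q : ℝ) * z u + 1) := by
            refine Finset.sum_le_sum fun u _ => ?_
            exact (Nat.ceil_lt_add_one (mul_nonneg hqpos.le (hz.1 u))).le
        _ = q * ∑ u, z u + Fintype.card ι := by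
            rw [Finset.sum_add_distrib, ← Finset.mul_sum, Finset.sum_const, Finset.card_univ, nsmul_eq_mul,
              mul_one]
        _ ≤ 2 * d * q + Fintype.card ι := by
            have := mul_le_mul_of_nonneg_left hz.2 hqpos.le
            linarith
    have hm' : 2 * d * ((⌊(q : ℝ) * τ⌋₊ : ℕ) : ℝ) ≤ 2 * d * q + Fintype.card ι := hm.trans hsum
    have h5 : 2 * d * ((q : ℝ) * τ - 1) < 2 * d * ((⌊(q : ℝ) * τ⌋₊ : ℕ) : ℝ) :=
      mul_lt_mul_of_pos_left hfl2 (by linarith)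
    nlinarith
  obtain ⟨L, p, hL, hc, hr, hs⟩ := key
  have hL0 : (0 : ℤ) < (L : ℤ) := by exact_mod_cast hL
  refine ⟨L, fun i => p (i % (L : ℤ)).toNat, hL, ?_, ?_, ?_⟩
  · intro i
    show r (p (i % (L : ℤ)).toNat) (p ((i + 1) % (L : ℤ)).toNat)
    have h1 : 0 ≤ i % (L : ℤ) := Int.emod_nonneg _ hL0.ne'
    have h2 : i % (L : ℤ) < L := Int.emod_lt_of_pos _ hL0
    have h3 : (i + 1) % (L : ℤ) = (i % (L : ℤ) + 1) % (L : ℤ) := (Int.emod_add_emod i L 1).symm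
    have hr' := hr (i % (L : ℤ)).toNat (by omega)
    rcases Int.lt_or_le (i % (L : ℤ) + 1) (L : ℤ) with h4 | h4
    · have h5 : (i + 1) % (L : ℤ) = i % (L : ℤ) + 1 := by
        rw [h3]; exact Int.emod_eq_of_lt (by omega) h4
      have h6 : ((i + 1) % (L : ℤ)).toNat = (i % (L : ℤ)).toNat + 1 := by
        rw [h5]; omega
      rw [h6]
      exact hr'
    · have h5 : i % (L : ℤ) + 1 = L := by omega
      have h6 : (i + 1) % (L : ℤ) = 0 := by
        rw [h3, h5, Int.emod_self]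
      have h7 : ((i + 1) % (L : ℤ)).toNat = 0 := by rw [h6]; rfl
      have h8 : (i % (L : ℤ)).toNat + 1 = L := by omega
      rw [h7, ← hc]
      rw [h8] at hr'
      exact hr'
  · intro i
    show p ((i + (L : ℤ)) % (L : ℤ)).toNat = p (i % (L : ℤ)).toNat
    rw [Int.add_emod_right]
  · refine le_trans (le_of_eq (Finset.sum_congr rfl fun i hi => ?_)) hs
    have hi' := Finset.mem_range.1 hi
    show z (p (((i : ℕ) : ℤ) % (L : ℤ)).toNat) = z (p i)
    have h1 : ((i : ℕ) : ℤ) % (L : ℤ) = i := Int.emod_eq_of_lt (by omega) (by omega)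
    rw [h1]
    rfl

end Pool.Agent.Helper34.ST
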